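import Pool.Agent.helper36.PP.SpecB
import Pool.Agent.helper77.MP.REACH1

/-!
# pp: REACH1 (helper77)
-/

set_option autoImplicit false

open Complex Metric Set Filter Topology MeasureTheory MPS

noncomputable section

namespace PPS

theorem REACH1_sys {k : ℕ} [NeZero k] {f : Polynomial ℂ} {b : ZMod k → ℂ} {ψ : ℂ → ℂ} {δ : ℝ}
    {A : ℕ → ℝ} {G : ℕ → ℂ → ℂ} {Q p : ℕ} (h : Sys1 f b ψ δ A G Q) (hp : p ≤ Q) :
    Sys1 f b ψ δ A G p :=
  ⟨h.a0, fun q hq => h.mono q (by omega), h.g0, fun q h1 h2 => h.diff q h1 (by omega),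
    fun q hq => h.rel q (by omega), fun q hq => h.val q (by omega),
    fun q h1 h2 => h.disj q h1 (by omega)⟩

theorem REACH1 (hLEA : LEA_stmt) (hP1A : P1A_stmt) (hNH : MPS.NH_stmt) (hNPL : MPS.NPL_stmt)
    (hINC : INC_stmt) (hND : MPS.ND_stmt) (hPT : PT1_stmt) : REACH1_stmt := by
  intro n k _ f b g ψ ra R ε δ A G Q μ hH hε hμ p a hp1 hpk hpQ hpa hnd
  have hHp : H1 n k f b g ψ ra R ε δ A G p :=
    ⟨hH.su, hH.d0, hH.d1, hH.mp, REACH1_sys hH.sys hpQ, hpQ.trans hH.hQ⟩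
  have hδ := hH.d0
  have hδ1 := hH.d1
  rw [Set.not_disjoint_iff] at hnd
  obtain ⟨x, ⟨u, hu, hux⟩, ⟨u₁, hu₁, hu₁x⟩⟩ := hnd
  rw [mem_ball_zero_iff] at hu hu₁
  have hPN := (hH.su.mx 0).pn
  have hinj := hH.su.cyc.inj
  have h0p : (0 : ZMod k) ≠ -(p : ZMod k) := by
    intro h
    have h2 : (p : ZMod k) = 0 := by
      rw [← neg_eq_zero]; exact h.symm
    rw [ZMod.natCast_eq_zero_iff] at h2
    have := Nat.le_of_dvd (by omega) h2
    omega
  have hu₁1 : ‖u₁‖ < 1 := lt_of_lt_of_le hu₁ (Real.exp_le_one_iff.2 (by linarith))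
  have hu0 : u ≠ 0 := by
    rintro rfl
    rw [hHp.sys.val p le_rfl] at hux
    by_cases h : u₁ = 0
    · rw [h, hPN.val, ← hux] at hu₁x
      exact h0p (hinj hu₁x)
    · refine hPN.av u₁ (mem_ball_zero_iff.2 hu₁1) h (-(p : ZMod k)) ?_
      rw [hu₁x, hux]
  obtain ⟨w₁, hw₁⟩ : ∃ w₁, w₁ = Complex.log u := ⟨_, rfl⟩
  have hew₁ : Complex.exp w₁ = u := by rw [hw₁, Complex.exp_log hu0]
  have hw₁re : w₁.re < -a := by
    rw [hw₁, Complex.log_re]
    exact (Real.log_lt_iff_lt_exp (norm_pos_iff.2 hu0)).2 hu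
  have hLS : LevSys f b g (GW G) (HP (A p)) p :=
    (hP1A n k f b g ψ ra R ε δ A G p hHp).2.2.2.1 p le_rfl
  obtain ⟨hav, -, htau, -, -⟩ := hLEA k f b g (GW G) (HP (A p)) p hH.su.cyc
    (REACH1_open _) hLS
  have hw₁m : w₁ ∈ HP (A p) := by
    show w₁.re < -A p
    linarith
  have hu₁0 : u₁ ≠ 0 := by
    rintro rfl
    refine hav p le_rfl w₁ hw₁m 0 ?_
    show G p (Complex.exp w₁) = b 0
    rw [hew₁, hux, ← hu₁x, hPN.val]
  obtain ⟨v₁, hv₁⟩ : ∃ v₁, v₁ = Complex.log u₁ := ⟨_, rfl⟩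
  have hev₁ : Complex.exp v₁ = u₁ := by rw [hv₁, Complex.exp_log hu₁0]
  have hv₁re : v₁.re < -δ := by
    rw [hv₁, Complex.log_re]
    exact (Real.log_lt_iff_lt_exp (norm_pos_iff.2 hu₁0)).2 hu₁
  obtain ⟨w₂, hw₂⟩ : ∃ w₂ : ℂ, w₂ = w₁ - ((δ / 4 : ℝ) : ℂ) := ⟨_, rfl⟩
  have hw₂re : w₂.re = w₁.re - δ / 4 := by rw [hw₂, Complex.sub_re, Complex.ofReal_re]
  have hw₂m : w₂ ∈ HP (A p) := by
    show w₂.re < -A p
    rw [hw₂re]; linarith
  obtain ⟨F, hF⟩ : ∃ F : ℝ → ℝ, F = fun s : ℝ => Real.sqrt ‖tau b g (GW G) p (w₁ - (s : ℂ))‖ := ⟨_, rfl⟩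
  obtain ⟨D, hD⟩ : ∃ D : ℝ → ℝ, D = fun s : ℝ => Real.sqrt ‖tau b g (GW G) p (w₁ - (s : ℂ)) - 1‖ := ⟨_, rfl⟩
  have hI : (∫ t in (0 : ℝ)..1, ‖w₂ - w₁‖ * Real.sqrt ‖deriv (GW G p) (w₁ + t * (w₂ - w₁)) ^ 2 *
      BB b g (GW G p (w₁ + t * (w₂ - w₁)))‖) = ∫ s in (0 : ℝ)..(δ / 4), F s := by
    have e0 : w₂ - w₁ = -((δ / 4 : ℝ) : ℂ) := by rw [hw₂]; ring
    have e1 : ∀ t : ℝ, ‖w₂ - w₁‖ * Real.sqrt ‖deriv (GW G p) (w₁ + t * (w₂ - w₁)) ^ 2 *
      BB b g (GW G p (w₁ + t * (w₂ - w₁)))‖ = (δ / 4) * F ((δ / 4) * t) := by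
      intro t
      have e2 : w₁ + t * (w₂ - w₁) = w₁ - (((δ / 4) * t : ℝ) : ℂ) := by
        rw [e0]; push_cast; ring
      rw [e2, e0, norm_neg, Complex.norm_real, Real.norm_of_nonneg (by positivity), hF]
      rfl
    simp_rw [e1]
    rw [intervalIntegral.integral_const_mul]
    have := intervalIntegral.mul_integral_comp_mul_left (f := F) (a := 0) (b := 1) (δ / 4)
    rw [this, mul_zero, mul_one]
  have hmem : ∀ s : ℝ, 0 ≤ s → w₁ - (s : ℂ) ∈ HP (A p) := by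
    intro s hs
    show (w₁ - (s : ℂ)).re < -A p
    rw [Complex.sub_re, Complex.ofReal_re]
    linarith
  have hcont : ContinuousOn (fun s : ℝ => tau b g (GW G) p (w₁ - (s : ℂ))) (Set.Icc 0 (δ / 4)) := by
    refine ContinuousOn.comp (htau p le_rfl).continuousOn ?_ (fun s hs => hmem s hs.1)
    exact (continuous_const.sub Complex.continuous_ofReal).continuousOn
  have hFc : ContinuousOn F (Set.uIcc 0 (δ / 4)) := by
    rw [uIcc_of_le (by positivity), hF]
    exact hcont.norm.sqrt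
  have hDc : ContinuousOn D (Set.uIcc 0 (δ / 4)) := by
    rw [uIcc_of_le (by positivity), hD]
    exact (hcont.sub continuousOn_const).norm.sqrt
  have hge : δ ≤ ∫ s in (0 : ℝ)..(δ / 4), F s := by
    by_contra hlt
    push Not at hlt
    rw [← hI] at hlt
    have hNHr := (hNH k b g 0 (ψ 0) 1 hPN).1
    have hGd : DifferentiableOn ℂ (GW G p) (HP (A p)) := hLS.diff p le_rfl
    have hop : IsOpen {w : ℂ | w.re < Real.log 1} := isOpen_lt Complex.continuous_re continuous_const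
    obtain ⟨v₂, hv₂, hv₂e⟩ := hNPL k b g (hat (ψ 0)) (GW G p) {w | w.re < Real.log 1} (HP (A p)) v₁ w₁ w₂ δ
      hop (REACH1_open _) hNHr (by
        intro v hv
        show v.re < Real.log 1
        rw [Real.log_one]
        rw [mem_ball, dist_eq_norm] at hv
        have h1 := (Complex.abs_re_le_norm (v - v₁))
        rw [Complex.sub_re] at h1
        have h2 := (abs_le.1 h1).2
        linarith) hGd (fun w hw j => hav p le_rfl w hw j)
      ((REACH1_convex _).segment_subset hw₁m hw₂m) (by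
        show G p (Complex.exp w₁) = ψ 0 (Complex.exp v₁)
        rw [hew₁, hev₁, hux, hu₁x]) hlt
    have hlt2 := lt_of_le_of_lt hv₂ hlt
    have hv₂re : v₂.re < 0 := by
      have h1 := (Complex.abs_re_le_norm (v₂ - v₁))
      rw [Complex.sub_re] at h1
      have h2 := (abs_le.1 h1).2
      linarith
    obtain ⟨-, -, -, -, -, -, -, hincl⟩ := hINC n k f b g ψ ra R ε δ A G p hHp hp1 hε
    have hm1 : GW G p w₂ ∈ ψ (-(p : ZMod k)) '' ball 0 1 := by
      refine hincl ⟨Complex.exp w₂, ?_, rfl⟩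
      rw [mem_ball_zero_iff, Complex.norm_exp, Real.exp_lt_exp, hw₂re]
      linarith
    have hm2 : GW G p w₂ ∈ ψ 0 '' ball 0 1 := by
      rw [← hv₂e]
      refine ⟨Complex.exp v₂, ?_, rfl⟩
      rw [mem_ball_zero_iff, Complex.norm_exp, Real.exp_lt_one_iff]
      exact hv₂re
    exact Set.disjoint_left.1 (hND k b g 0 (-(p : ZMod k)) (ψ 0) (ψ (-(p : ZMod k))) hinj h0p
      (hH.su.mx 0) (hH.su.mx _)) hm2 hm1
  have hFD : ∀ s, F s ≤ 1 + D s := by
    intro s
    rw [hF, hD]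
    refine Real.sqrt_le_iff.2 ⟨by positivity, ?_⟩
    have h1 : ‖tau b g (GW G) p (w₁ - (s : ℂ))‖ ≤ 1 + ‖tau b g (GW G) p (w₁ - (s : ℂ)) - 1‖ := by
      have h2 := norm_add_le (1 : ℂ) (tau b g (GW G) p (w₁ - (s : ℂ)) - 1)
      rw [norm_one, add_sub_cancel] at h2
      exact h2
    have h3 := Real.sq_sqrt (norm_nonneg (tau b g (GW G) p (w₁ - (s : ℂ)) - 1))
    have h4 := Real.sqrt_nonneg (‖tau b g (GW G) p (w₁ - (s : ℂ)) - 1‖)
    nlinarith
  have hDge : 3 * δ / 4 ≤ ∫ s in (0 : ℝ)..(δ / 4), D s := by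
    have h1 : ∫ s in (0 : ℝ)..(δ / 4), F s ≤ ∫ s in (0 : ℝ)..(δ / 4), (1 + D s) := by
      refine intervalIntegral.integral_mono_on (by positivity) hFc.intervalIntegrable
        (continuousOn_const.add hDc).intervalIntegrable (fun s _ => hFD s)
    rw [intervalIntegral.integral_add (continuousOn_const.intervalIntegrable) hDc.intervalIntegrable,
      intervalIntegral.integral_const] at h1
    simp only [sub_zero, smul_eq_mul, mul_one] at h1
    linarith
  have hDlev : ∀ s : ℝ, 0 ≤ s → ‖tau b g (GW G) p (w₁ - (s : ℂ)) - 1‖ ≤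
      ∑ q ∈ Finset.Icc 1 p, lev b g (GW G) q (w₁ - (s : ℂ)) := by
    intro s hs
    refine (hPT n k f b g ψ ra R ε δ A G Q hH p hp1 hpQ (w₁ - (s : ℂ)) (-(w₁.re) + s - A p) (by linarith) ?_).2.2
    rw [Complex.sub_re, Complex.ofReal_re]
    ring
  have ht₀ : -w₁.re - a < δ / 8 := by
    by_contra hcon
    push Not at hcon
    have hεpos : 4 * ε ≤ δ ^ 2 / 256 := by linarith
    have hD2 : ∀ s ∈ Set.Icc (0 : ℝ) (δ / 4), D s ≤ 1 / 2 := by
      intro s hs
      have hb : ‖tau b g (GW G) p (w₁ - (s : ℂ)) - 1‖ ≤ 1 / 4 := by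
        refine (hDlev s hs.1).trans ?_
        have hpt := hPT n k f b g ψ ra R ε δ A G Q hH p hp1 hpQ (w₁ - (s : ℂ)) (-(w₁.re) + s - A p)
          (by linarith [hs.1]) (by rw [Complex.sub_re, Complex.ofReal_re]; ring)
        have htg : δ / 8 ≤ -(w₁.re) + s - A p := by linarith [hs.1]
        have ht0 : 0 < -(w₁.re) + s - A p := by linarith
        have hε0 : 0 ≤ ε ∨ ε < 0 := le_or_gt 0 ε
        rcases le_total (-(w₁.re) + s - A p) 1 with h1 | h1
        · refine (hpt.1 h1).trans ?_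
          rw [div_le_iff₀ (by positivity)]
          have h2 : (δ / 8) ^ 2 ≤ (-(w₁.re) + s - A p) ^ 2 := by
            apply pow_le_pow_left₀ (by positivity) htg
          nlinarith
        · refine (hpt.2.1 h1).trans ?_
          have h3 : Real.exp (1 - (-(w₁.re) + s - A p)) ≤ 1 := Real.exp_le_one_iff.2 (by linarith)
          have h4 := Real.exp_pos (1 - (-(w₁.re) + s - A p))
          rcases hε0 with h5 | h5
          · have : 4 * ε * Real.exp (1 - (-(w₁.re) + s - A p)) ≤ 4 * ε * 1 :=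
              mul_le_mul_of_nonneg_left h3 (by linarith)
            nlinarith
          · have : 4 * ε * Real.exp (1 - (-(w₁.re) + s - A p)) ≤ 0 :=
              mul_nonpos_of_nonpos_of_nonneg (by linarith) h4.le
            linarith
      rw [hD]
      refine Real.sqrt_le_iff.2 ⟨by norm_num, ?_⟩
      linarith
    have h1 : ∫ s in (0 : ℝ)..(δ / 4), D s ≤ ∫ s in (0 : ℝ)..(δ / 4), (1 / 2 : ℝ) :=
      intervalIntegral.integral_mono_on (by positivity) hDc.intervalIntegrable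
        continuousOn_const.intervalIntegrable hD2
    rw [intervalIntegral.integral_const] at h1
    simp only [sub_zero, smul_eq_mul] at h1
    linarith
  have hDint : ENNReal.ofReal (∫ s in (0 : ℝ)..(δ / 4), D s) = ∫⁻ s in Ioo (0 : ℝ) (δ / 4), ENNReal.ofReal (D s) := by
    rw [intervalIntegral.integral_of_le (by positivity), integral_Ioc_eq_integral_Ioo]
    have hint : IntegrableOn D (Ioo (0 : ℝ) (δ / 4)) := by
      have := (intervalIntegrable_iff_integrableOn_Ioc_of_le (by positivity)).1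
        (hDc.intervalIntegrable (μ := volume))
      exact this.mono_set Ioo_subset_Ioc_self
    refine ofReal_integral_eq_lintegral_ofReal hint (Filter.Eventually.of_forall fun s => ?_)
    rw [hD]
    exact Real.sqrt_nonneg _
  calc ENNReal.ofReal (3 * δ / 4) ≤ ENNReal.ofReal (∫ s in (0 : ℝ)..(δ / 4), D s) :=
        ENNReal.ofReal_le_ofReal hDge
    _ = ∫⁻ s in Ioo (0 : ℝ) (δ / 4), ENNReal.ofReal (D s) := hDint
    _ ≤ ∫⁻ s in Ioo (0 : ℝ) (δ / 4), (fun t : ℝ => ENNReal.ofReal (2 / (Real.sqrt Real.pi * t)) *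
        (μ (Ioo (a + t / 2) (a + 3 * t / 2))) ^ (1 / 2 : ℝ)) ((-w₁.re - a) + s) := by
        refine setLIntegral_mono' measurableSet_Ioo fun s hs => ?_
        have ht : 0 < (-w₁.re - a) + s := by linarith [hs.1]
        have ht1 : (-w₁.re - a) + s ≤ 1 := by linarith [hs.2]
        have hm := hμ p hp1 hpQ a ((-w₁.re - a) + s) (w₁ - (s : ℂ)) hpa ht ht1 (by
          rw [Complex.sub_re, Complex.ofReal_re]; ring)
        rw [hD]
        exact REACH1_pt _ _ _ (norm_nonneg _) ht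
          ((ENNReal.ofReal_le_ofReal (hDlev s hs.1.le)).trans hm)
    _ ≤ PsiM μ 1 a := by
        unfold PsiM
        exact REACH1_tr (fun t : ℝ => ENNReal.ofReal (2 / (Real.sqrt Real.pi * t)) *
          (μ (Ioo (a + t / 2) (a + 3 * t / 2))) ^ (1 / 2 : ℝ)) (-w₁.re - a) (δ / 4)
          (by linarith) (by linarith)

end PPS
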