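import Pool.Agent.helper25.PP.Spec

set_option autoImplicit false

namespace PP

open Finset SimpleGraph CT

theorem HS_even {V : Type} [Fintype V] [DecidableEq V] (G : SimpleGraph V) (S : Finset V) :
    Even (ein G S) := by
  classical
  have h : (∑ _p ∈ inn G S, (1 : ZMod 2)) = 0 := by
    refine Finset.sum_involution (fun p _ => (p.2, p.1)) ?_ ?_ ?_ ?_
    · intro p hp
      decide
    · intro p hp _ he
      have h1 := (mem_ein G S p).1 hp
      have h2 : p.2 = p.1 := congrArg Prod.fst he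
      rw [h2] at h1
      exact G.loopless.irrefl _ h1.2
    · intro p hp
      have h1 := (mem_ein G S p).1 hp
      exact (mem_ein G S _).2 ⟨⟨h1.1.2, h1.1.1⟩, h1.2.symm⟩
    · intro p hp
      rfl
  have h2 : ((inn G S).card : ZMod 2) = 0 := by
    simpa using h
  have h3 : 2 ∣ (inn G S).card := (ZMod.natCast_eq_zero_iff _ 2).1 h2
  exact even_iff_two_dvd.2 h3

theorem HS_sum {V : Type} [Fintype V] [DecidableEq V] (G : SimpleGraph V) (S : Finset V) :
    ein G S + dout G S = ((inn G univ).filter fun p => p.1 ∈ S).card := by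
  classical
  unfold ein dout
  have hd : Disjoint (inn G S) (out G S) := by
    rw [Finset.disjoint_left]
    intro p h1 h2
    exact ((mem_dout G S p).1 h2).1.2 ((mem_ein G S p).1 h1).1.2
  rw [← Finset.card_union_of_disjoint hd]
  congr 1
  ext p
  rw [Finset.mem_union, Finset.mem_filter, mem_ein, mem_dout, mem_ein]
  constructor
  · rintro (h | h)
    · exact ⟨⟨⟨mem_univ _, mem_univ _⟩, h.2⟩, h.1.1⟩
    · exact ⟨⟨⟨mem_univ _, mem_univ _⟩, h.2⟩, h.1.1⟩
  · rintro ⟨h1, h2⟩
    by_cases h3 : p.2 ∈ S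
    · exact Or.inl ⟨⟨h2, h3⟩, h1.2⟩
    · exact Or.inr ⟨⟨h2, h3⟩, h1.2⟩

theorem HS_compl {V : Type} [Fintype V] [DecidableEq V] (G : SimpleGraph V) (S : Finset V) :
    dout G Sᶜ = dout G S := by
  classical
  unfold dout
  refine Finset.card_bij' (fun p _ => (p.2, p.1)) (fun p _ => (p.2, p.1)) ?_ ?_ ?_ ?_
  · intro p hp
    have h := (mem_dout G Sᶜ p).1 hp
    refine (mem_dout G S _).2 ⟨⟨?_, ?_⟩, h.2.symm⟩
    · have := h.1.2
      rw [Finset.mem_compl, not_not] at this
      exact this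
    · exact Finset.mem_compl.1 h.1.1
  · intro p hp
    have h := (mem_dout G S p).1 hp
    refine (mem_dout G Sᶜ _).2 ⟨⟨?_, ?_⟩, h.2.symm⟩
    · exact Finset.mem_compl.2 h.1.2
    · rw [Finset.mem_compl, not_not]
      exact h.1.1
  · intro p hp
    rfl
  · intro p hp
    rfl

theorem HS (h : NB4_stmt) : HS_stmt := by
  intro V _ _ G S hG
  have h1 := ((h V G).2 hG).2.1
  refine ⟨HS_even G S, ?_, ?_⟩
  · rw [HS_sum]
    exact h1 S
  · rw [← HS_compl G S, HS_sum]
    exact h1 Sᶜ

end PP
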